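import Pool.Agent.helper89.PU.Spec1

/-!
# Row LAM: Cramer's rule
-/

set_option autoImplicit false

namespace Pool.Agent.PV

open Matrix Polynomial Pool.Agent.GO Pool.Agent.AR Pool.Agent.RG Pool.Agent.HZ Pool.Agent.DS
  Pool.Agent.AX Pool.Agent.UM Pool.Agent.PU MeasureTheory NumberField

theorem LAM_sub {K : Type} [NormedField K] [IsUltrametricDist K] (x y : K) : ‖x - y‖ ≤ max ‖x‖ ‖y‖ := by
  rw [sub_eq_add_neg, ← norm_neg y]
  exact IsUltrametricDist.norm_add_le_max _ _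

theorem LAM_minor {K : Type} [NormedField K] [IsUltrametricDist K] (x y z t : K) (ν : ℝ) (hν : 0 ≤ ν)
    (hx : ‖x‖ ≤ ν) (hy : ‖y‖ ≤ ν) (hz : ‖z‖ ≤ ν) (ht : ‖t‖ ≤ ν) : ‖x * y - z * t‖ ≤ ν ^ 2 := by
  refine (LAM_sub _ _).trans (max_le ?_ ?_)
  · rw [norm_mul, pow_two]
    exact mul_le_mul hx hy (norm_nonneg _) hν
  · rw [norm_mul, pow_two]
    exact mul_le_mul hz ht (norm_nonneg _) hν

theorem LAM_sum {K : Type} [NormedField K] [IsUltrametricDist K] (l₁ l₂ l₃ m₁ m₂ m₃ : K) (a ν : ℝ) (hν : 0 < ν)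
    (h1 : ‖l₁‖ < a) (h2 : ‖l₂‖ < a) (h3 : ‖l₃‖ < a) (g1 : ‖m₁‖ ≤ ν ^ 2) (g2 : ‖m₂‖ ≤ ν ^ 2) (g3 : ‖m₃‖ ≤ ν ^ 2) :
    ‖l₁ * m₁ - l₂ * m₂ + l₃ * m₃‖ < a * ν ^ 2 := by
  have key : ∀ l m : K, ‖l‖ < a → ‖m‖ ≤ ν ^ 2 → ‖l * m‖ < a * ν ^ 2 := by
    intro l m hl hm
    rw [norm_mul]
    calc ‖l‖ * ‖m‖ ≤ ‖l‖ * ν ^ 2 := mul_le_mul_of_nonneg_left hm (norm_nonneg _)
      _ < a * ν ^ 2 := mul_lt_mul_of_pos_right hl (by positivity)
  refine (IsUltrametricDist.norm_add_le_max _ _).trans_lt (max_lt ?_ (key _ _ h3 g3))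
  exact (LAM_sub _ _).trans_lt (max_lt (key _ _ h1 g1) (key _ _ h2 g2))

theorem LAM : LAM_stmt := by
  intro K _ _ A B C w κ ν hw hw1 hA hB hC hd
  by_contra hcon
  push Not at hcon
  obtain ⟨h1, h2, h3⟩ := hcon
  have hν0 : 0 ≤ ν := (nu_nonneg A).trans hA
  have hκν : 0 < κ * ν := (norm_nonneg _).trans_lt h1
  have hν : 0 < ν := by
    rcases hν0.lt_or_eq with h | h
    · exact h
    · rw [← h, mul_zero] at hκν
      exact absurd hκν (lt_irrefl _)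
  have a1 := (norm01_le A).trans hA
  have a2 := (norm10_le A).trans hA
  have a3 := (normd_le A).trans hA
  have b1 := (norm01_le B).trans hB
  have b2 := (norm10_le B).trans hB
  have b3 := (normd_le B).trans hB
  have c1 := (norm01_le C).trans hC
  have c2 := (norm10_le C).trans hC
  have c3 := (normd_le C).trans hC
  have hd3 : d3 A B C = A 0 1 * (B 1 0 * (C 0 0 - C 1 1) - (B 0 0 - B 1 1) * C 1 0) -
      A 1 0 * (B 0 1 * (C 0 0 - C 1 1) - (B 0 0 - B 1 1) * C 0 1) +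
      (A 0 0 - A 1 1) * (B 0 1 * C 1 0 - B 1 0 * C 0 1) := by
    unfold d3
    rw [Matrix.det_fin_three]
    simp only [Matrix.of_apply, Matrix.cons_val', Matrix.cons_val_zero, Matrix.cons_val_one, Matrix.cons_val_two,
      Matrix.empty_val', Matrix.cons_val_fin_one, Matrix.head_cons, Matrix.tail_cons, Matrix.head_fin_const]
    ring
  have e1 : d3 A B C * (-(w 1) ^ 2) = lam w A * (B 1 0 * (C 0 0 - C 1 1) - (B 0 0 - B 1 1) * C 1 0) -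
      lam w B * (A 1 0 * (C 0 0 - C 1 1) - (A 0 0 - A 1 1) * C 1 0) +
      lam w C * (A 1 0 * (B 0 0 - B 1 1) - (A 0 0 - A 1 1) * B 1 0) := by
    rw [hd3]
    unfold lam
    ring
  have e2 : d3 A B C * (-(w 0) ^ 2) = lam w A * (B 0 1 * (C 0 0 - C 1 1) - (B 0 0 - B 1 1) * C 0 1) -
      lam w B * (A 0 1 * (C 0 0 - C 1 1) - (A 0 0 - A 1 1) * C 0 1) +
      lam w C * (A 0 1 * (B 0 0 - B 1 1) - (A 0 0 - A 1 1) * B 0 1) := by
    rw [hd3]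
    unfold lam
    ring
  have m := fun (x y z t : K) => LAM_minor x y z t ν hν0
  have hlt : ‖d3 A B C‖ < κ * ν * ν ^ 2 := by
    rcases hw1 with h | h
    · have h4 := LAM_sum _ _ _ _ _ _ (κ * ν) ν hν h1 h2 h3 (m _ _ _ _ b1 c3 b3 c1) (m _ _ _ _ a1 c3 a3 c1)
        (m _ _ _ _ a1 b3 a3 b1)
      rw [← e2, norm_mul, norm_neg, norm_pow, h, one_pow, mul_one] at h4
      exact h4
    · have h4 := LAM_sum _ _ _ _ _ _ (κ * ν) ν hν h1 h2 h3 (m _ _ _ _ b2 c3 b3 c2) (m _ _ _ _ a2 c3 a3 c2)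
        (m _ _ _ _ a2 b3 a3 b2)
      rw [← e1, norm_mul, norm_neg, norm_pow, h, one_pow, mul_one] at h4
      exact h4
  have : κ * ν * ν ^ 2 = κ * ν ^ 3 := by ring
  rw [this] at hlt
  exact absurd hlt (not_lt.2 hd)

end Pool.Agent.PV
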