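import Pool.Agent.helper16.PU.Spec2

/-!
# Row PRO: the product over the primes
-/

set_option autoImplicit false

namespace Pool.Agent.PU

open Matrix Polynomial Pool.Agent.GO Pool.Agent.AR Pool.Agent.RG Pool.Agent.HZ Pool.Agent.DS
  Pool.Agent.AX Pool.Agent.UM NumberField

theorem PRO_dvd (J : Type) (s : Finset J) (f : J → ℕ) (z : ℕ)
    (h : ∀ i ∈ s, ∀ j ∈ s, i ≠ j → Nat.Coprime (f i) (f j)) (hd : ∀ i ∈ s, f i ∣ z) : ∏ i ∈ s, f i ∣ z := by
  refine Finset.prod_dvd_of_isRelPrime ?_ hd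
  intro i hi j hj hij
  exact Nat.coprime_iff_isRelPrime.1 (h i hi j hj hij)

theorem PRO : PRO_stmt := by
  classical
  intro J s p hinj hp N₁ N₂ c t hN₁ hN₂ cc x hcc hx
  have hcop : ∀ i j, i ≠ j → Nat.Coprime (p i) (p j) := by
    intro i j hij
    exact (Nat.coprime_primes (hp i) (hp j)).2 (fun h => hij (hinj h))
  set a : J → ℕ := fun j => if p j ≤ c then p j else 1 with ha
  set v₁ : J → ℕ := fun j => p j ^ padicValNat (p j) N₁ with hv₁
  set v₂ : J → ℕ := fun j => p j ^ padicValNat (p j) N₂ with hv₂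
  have hv₁1 : ∀ j, 1 ≤ v₁ j := fun j => Nat.one_le_pow _ _ (hp j).pos
  have hv₂1 : ∀ j, 1 ≤ v₂ j := fun j => Nat.one_le_pow _ _ (hp j).pos
  have ha1 : ∀ j, 1 ≤ a j := by
    intro j
    simp only [ha]
    split_ifs
    · exact (hp j).pos
    · exact le_rfl
  have hA : ∏ j ∈ s, a j ≤ c.factorial := by
    refine Nat.le_of_dvd c.factorial_pos (PRO_dvd J s a _ ?_ ?_)
    · intro i _ j _ hij
      simp only [ha]
      split_ifs
      · exact hcop i j hij
      · exact Nat.coprime_one_right _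
      · exact Nat.coprime_one_left _
      · exact Nat.coprime_one_right _
    · intro i _
      simp only [ha]
      split_ifs with h
      · exact Nat.dvd_factorial (hp i).pos h
      · exact one_dvd _
  have hV : ∀ N : ℕ, N ≠ 0 → ∏ j ∈ s, p j ^ padicValNat (p j) N ≤ N := by
    intro N hN
    refine Nat.le_of_dvd (Nat.pos_of_ne_zero hN) (PRO_dvd J s _ _ ?_ ?_)
    · intro i _ j _ hij
      exact Nat.Coprime.pow _ _ (hcop i j hij)
    · intro i _
      exact pow_padicValNat_dvd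
  have hU : ∏ j ∈ s, (v₁ j * v₂ j) ≤ N₁ * N₂ := by
    rw [Finset.prod_mul_distrib]
    exact Nat.mul_le_mul (hV N₁ hN₁) (hV N₂ hN₂)
  have hterm : ∀ j ∈ s, x j ≤ cc j * a j ^ t * (v₁ j * v₂ j) ^ (2 * t) := by
    intro j hj
    obtain ⟨M, hM, hxM⟩ := hx j hj
    have hMu : p j ^ padicValNat (p j) M ≤ v₁ j * v₂ j := by
      rcases hM with rfl | rfl
      · exact Nat.le_mul_of_pos_right _ (hv₂1 j)
      · exact Nat.le_mul_of_pos_left _ (hv₁1 j)
    have hM0 : M ≠ 0 := by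
      rcases hM with rfl | rfl
      · exact hN₁
      · exact hN₂
    have hu1 : 1 ≤ v₁ j * v₂ j := Nat.mul_pos (hv₁1 j) (hv₂1 j)
    have hut : (v₁ j * v₂ j) ^ t ≤ (v₁ j * v₂ j) ^ (2 * t) := Nat.pow_le_pow_right hu1 (by omega)
    have hat : 1 ≤ a j ^ t := Nat.one_le_pow _ _ (ha1 j)
    rcases hxM with h | ⟨h, h2 | h2⟩
    · calc x j ≤ cc j * (p j ^ padicValNat (p j) M) ^ t := h
        _ ≤ cc j * (v₁ j * v₂ j) ^ (2 * t) :=
            Nat.mul_le_mul le_rfl ((Nat.pow_le_pow_left hMu t).trans hut)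
        _ = cc j * 1 * (v₁ j * v₂ j) ^ (2 * t) := by rw [mul_one]
        _ ≤ cc j * a j ^ t * (v₁ j * v₂ j) ^ (2 * t) :=
            Nat.mul_le_mul (Nat.mul_le_mul le_rfl hat) le_rfl
    · have haj : a j = p j := by
        simp only [ha]
        rw [if_pos h2]
      calc x j ≤ p j ^ t * (p j ^ padicValNat (p j) M) ^ t := h
        _ ≤ a j ^ t * (v₁ j * v₂ j) ^ (2 * t) := by
            rw [haj]
            exact Nat.mul_le_mul le_rfl ((Nat.pow_le_pow_left hMu t).trans hut)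
        _ = 1 * a j ^ t * (v₁ j * v₂ j) ^ (2 * t) := by rw [one_mul]
        _ ≤ cc j * a j ^ t * (v₁ j * v₂ j) ^ (2 * t) :=
            Nat.mul_le_mul (Nat.mul_le_mul (hcc j hj) le_rfl) le_rfl
    · have hpv : p j ≤ p j ^ padicValNat (p j) M := by
        have hpf : Fact (p j).Prime := ⟨hp j⟩
        have h1 : 1 ≤ padicValNat (p j) M := one_le_padicValNat_of_dvd hM0 h2
        calc p j = p j ^ 1 := (pow_one _).symm
          _ ≤ p j ^ padicValNat (p j) M := Nat.pow_le_pow_right (hp j).pos h1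
      have hpu : p j ≤ v₁ j * v₂ j := hpv.trans hMu
      calc x j ≤ p j ^ t * (p j ^ padicValNat (p j) M) ^ t := h
        _ ≤ (v₁ j * v₂ j) ^ t * (v₁ j * v₂ j) ^ t :=
            Nat.mul_le_mul (Nat.pow_le_pow_left hpu t) (Nat.pow_le_pow_left hMu t)
        _ = 1 * 1 * (v₁ j * v₂ j) ^ (2 * t) := by rw [two_mul, pow_add, one_mul, one_mul]
        _ ≤ cc j * a j ^ t * (v₁ j * v₂ j) ^ (2 * t) :=
            Nat.mul_le_mul (Nat.mul_le_mul (hcc j hj) hat) le_rfl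
  calc ∏ j ∈ s, x j ≤ ∏ j ∈ s, (cc j * a j ^ t * (v₁ j * v₂ j) ^ (2 * t)) := Finset.prod_le_prod' hterm
    _ = (∏ j ∈ s, cc j) * (∏ j ∈ s, a j) ^ t * (∏ j ∈ s, (v₁ j * v₂ j)) ^ (2 * t) := by
        rw [Finset.prod_mul_distrib, Finset.prod_mul_distrib, Finset.prod_pow, Finset.prod_pow]
    _ ≤ (∏ j ∈ s, cc j) * c.factorial ^ t * (N₁ * N₂) ^ (2 * t) :=
        Nat.mul_le_mul (Nat.mul_le_mul le_rfl (Nat.pow_le_pow_left hA t)) (Nat.pow_le_pow_left hU _)

end Pool.Agent.PU
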